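import Pool.Agent.Q309.DU.Lang

set_option autoImplicit false

/-!
# Lang's conjecture for functional equations and runs of rational points

Let `K` be a number field, `σ : K → ℂ` an embedding, and let `X`, `Z` be the projective varieties given
by the forms in the ideals `I`, `I'` of `K[x_0, ..., x_N]` (for `I' = ⊤` the variety `Z` is empty). The
following are equivalent:

* (`RatCurvesIn`) all nonconstant rational curves in `X` over `ℂ` lie in `Z`;

* (`QCurvesIn`) for all `q` which are not zero and not roots of unity, all nonconstant entire curves
  in `X` with meromorphic homogeneous coordinates satisfying nontrivial linear `q`-difference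
  equations with polynomial coefficients lie in `Z`;

* (`FCurvesIn`) for all `r`, `e` there is a number `B` such that for all nonconstant entire functions
  `s` and all entire functions `t` with `t (s z) = α t z + β` and `t ∘ s^k ≠ t` for `0 < k ≤ B`, all
  entire curves `f` in `X` with meromorphic homogeneous coordinates satisfying nontrivial equations
  `∑ P_k (t z) h (s^k z) = 0`, `k ≤ r`, `deg P_k ≤ e`, lie in `Z` or satisfy `f ∘ s^k = f` for some
  `0 < k ≤ B`;

* (`UniformRuns`) for all `r`, `e` there is ONE number `B` such that for ALL fields `L ⊇ K` with an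
  embedding in `ℂ` extending `σ` and all sequences `x 0, x 1, ...` of points of `(X ∖ Z)(L)` whose
  homogeneous coordinates satisfy nontrivial recurrences `∑ P_k (t m) x (m + k) j = 0`, `k ≤ r`,
  `m ≤ B`, with polynomials `P_k` over `L` of degree at most `e` and different elements
  `t 0, ..., t B` of `L` with `t (m + 1) = α t m + β` (`DSeq r e B x`), two of the points
  `x 0, ..., x B` are equal;

* (`FieldRuns`) for all finite extensions `L` of `K` and all `r`, `e` there is such a number `B`.

Both sides of Lang's conjecture, for `Z` instead of the empty set, imply these conditions: if all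
nonconstant entire curves in `X` lie in `Z`, then (`UniformRuns`) holds, and if `(X ∖ Z)(L)` is finite
for all finite extensions `L` of `K`, then (`QCurvesIn`) and (`FCurvesIn`) hold.
-/

namespace Pool.Agent.Results.MP_f82ddf_nt.FunctionalEquationLang

open MvPolynomial Pool.Agent.TH143.HE Pool.Agent.Q309.DU

theorem result {K : Type} [Field K] [NumberField K] (σ : K →+* ℂ) {N : ℕ}
    (I I' : Ideal (MvPolynomial (Fin (N + 1)) K)) :
    [RatCurvesIn σ I I', QCurvesIn σ I I', FCurvesIn σ I I', UniformRuns σ I I',
      FieldRuns I I'].TFAE ∧ (HypIn σ I I' → UniformRuns σ I I') ∧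
      (FinIn I I' → QCurvesIn σ I I' ∧ FCurvesIn σ I I') := by
  obtain ⟨h, h1, h2⟩ := lang_main σ I I'
  have e1 : QCurvesIn σ I I' ↔ UniformRuns σ I I' := h.out 1 3
  have e2 : FieldRuns I I' ↔ QCurvesIn σ I I' := h.out 4 1
  have e3 : FieldRuns I I' ↔ FCurvesIn σ I I' := h.out 4 2
  exact ⟨h, fun h' => e1.1 (h1 h'), fun h' => ⟨e2.1 (h2 h'), e3.1 (h2 h')⟩⟩

end Pool.Agent.Results.MP_f82ddf_nt.FunctionalEquationLang
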