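import Mathlib
import Pool.Agent.Q13.LE.Lang

/-!
# Lang's equivalence and curves of genus at most one

Let `X` and `Z` be the projective varieties over a number field `K`, embedded in `ℂ` by `σ`, given
by the forms in the ideals `I` and `I'` of `K[x_0, ..., x_N]` (for `I' = ⊤` the variety `Z` is empty).

The following are equivalent:

1. all nonconstant entire curves in `X_σ` given by iterated linear differential equations over a
   differential ring of meromorphic functions of transcendence degree at most one (for example the
   polynomials, the polynomials in `exp z`, the elliptic functions with given periods) lie in `Z`;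
2. all nonconstant holomorphic maps from one-dimensional complex tori to `X_σ` have their image in
   `Z`;
3. all nonconstant maps from the projective line and from elliptic curves over `ℂ` to `X_σ` have their
   image in `Z`;
4. the same over all number fields `L ⊇ K`;
5. for all fields `L ⊇ K` embedded in `ℂ` over `K`, all sequences of points of `X(L)` outside of `Z`
   with homogeneous coordinates satisfying linear recurrences over a field `B` of coefficients
   are eventually periodic; here `B` is a tower: the first field is a finitely generated field of
   sequences, closed under the shift, of transcendence degree at most one over `ℂ`, and each further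
   field is generated by finitely many sequences satisfying linear recurrences over the one before;
6. for all number fields `L ⊇ K`, all sequences of points of `X(L)` outside of `Z`, with homogeneous
   coordinates in a finitely generated field of sequences, closed under the shift, of transcendence
   degree at most one over `ℂ`, consist of finitely many points.

If `X_σ` is hyperbolic modulo `Z` (all nonconstant entire curves in `X_σ` lie in `Z`), then (1) holds;
if the sets `X(L)` without the points of `Z` are finite for all number fields `L ⊇ K`, then (6) holds.
So both sides of Lang's conjecture imply these six conditions.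

New: the direction from (6) to (4) (points of infinite order on elliptic curves over number fields,
with orbits of the duplication which converge 2-adically to the origin), the number field versions
and the combination. The parametrisation of the cubics and its consequences are due to the authors
of the files `Y719/LC`, the iterated linear equations to the authors of `Y377/IL`, the recurrences to
the authors of `TH143/GE`.
-/

set_option autoImplicit false

namespace Pool.Agent.Results.MP_f82ddf_nt.LowGenusLang

open MvPolynomial
open scoped LinearAlgebra.Projectivization
open Pool.Agent.Q13.LE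

variable {K : Type} [Field K] {N : ℕ}

/-- All nonconstant entire curves in `X_σ` lie in `Z`. For `I' = ⊤` the variety `Z` is empty, and this
is the (Brody) hyperbolicity of `X_σ`. -/
def Hyperbolic (σ : K →+* ℂ) (I I' : Ideal (MvPolynomial (Fin (N + 1)) K)) : Prop :=
  CurvesIn σ I I' fun _ => True

/-- The points of the projective variety given by the forms in `I`, with coordinates in `L`. -/
def Pts (L : Type) [Field L] [Algebra K L] (I : Ideal (MvPolynomial (Fin (N + 1)) K)) :
    Set (ℙ L (Fin (N + 1) → L)) :=
  {P | Pool.Agent.TH143.HE.IsPtP (algebraMap K L) I P.rep}

/-- The set `X(L)`, without the points of `Z`, is finite for all finite extensions `L` of `K`. -/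
def Finiteness (I I' : Ideal (MvPolynomial (Fin (N + 1)) K)) : Prop :=
  ∀ (L : Type) [Field L] [NumberField L] [Algebra K L], (Pts L I \ Pts L I').Finite

theorem mem_pts {L : Type} [Field L] [Algebra K L] {I : Ideal (MvPolynomial (Fin (N + 1)) K)}
    {x : Fin (N + 1) → L} (hx : x ≠ 0) :
    Projectivization.mk L x hx ∈ Pts L I ↔
      Pool.Agent.TH143.HE.IsPtP (algebraMap K L) I x := by
  have hsm : ∀ {y : Fin (N + 1) → L}, Pool.Agent.TH143.HE.IsPtP (algebraMap K L) I y → ∀ a : L,
      Pool.Agent.TH143.HE.IsPtP (algebraMap K L) I (fun j => a * y j) := by
    rintro y h a G hG ⟨d, hd⟩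
    rw [Pool.Agent.TH143.HE.eval₂_smul_homog _ a y hd, h G hG ⟨d, hd⟩, mul_zero]
  obtain ⟨a, ha⟩ := Projectivization.exists_smul_eq_mk_rep L x hx
  have h1 : (Projectivization.mk L x hx).rep = fun j => (a : L) * x j := by
    rw [← ha]
    rfl
  constructor
  · intro h
    have h2 : Pool.Agent.TH143.HE.IsPtP (algebraMap K L) I (Projectivization.mk L x hx).rep := h
    rw [h1] at h2
    have h3 := hsm h2 (a : L)⁻¹
    have h4 : (fun j => (a : L)⁻¹ * ((a : L) * x j)) = x := by
      funext j
      rw [inv_mul_cancel_left₀ a.ne_zero]
    rwa [h4] at h3
  · intro h
    change Pool.Agent.TH143.HE.IsPtP (algebraMap K L) I (Projectivization.mk L x hx).rep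
    rw [h1]
    exact hsm h _

theorem result {K : Type} [Field K] [NumberField K] (σ : K →+* ℂ) {N : ℕ}
    (I I' : Ideal (MvPolynomial (Fin (N + 1)) K)) :
    List.TFAE [CurvesIn σ I I' IteratedCurve, CurvesIn σ I I' DoublyPeriodic, LowGenusIn σ I I',
      ∀ (L : Type) [Field L] [NumberField L] [Algebra K L], LowGenusIn (algebraMap K L) I I',
      TowersPeriodic σ I I', SequencesFinite σ I I'] ∧
    (Hyperbolic σ I I' → CurvesIn σ I I' IteratedCurve) ∧
    (Finiteness I I' → SequencesFinite σ I I') := by
  refine ⟨main σ I I', fun h f hf _ hI hnc => h f hf trivial hI hnc, ?_⟩
  intro h B _ _ _ L _ _ _ τ _ x hx _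
  have h1 := h L
  refine ⟨Projectivization.rep '' (Pts L I \ Pts L I'), h1.image _, ?_, fun m => ?_⟩
  · rintro _ ⟨P, _, rfl⟩
    exact P.rep_nonzero
  · refine ⟨_, ⟨Projectivization.mk L (x m) (hx.ne m), ⟨(mem_pts (hx.ne m)).2 (hx.mem m),
      fun hc => hx.out m ((mem_pts (hx.ne m)).1 hc)⟩, rfl⟩, fun i j => ?_⟩
    obtain ⟨a, ha⟩ := Projectivization.exists_smul_eq_mk_rep L (x m) (hx.ne m)
    rw [← ha]
    change x m i * ((a : L) * x m j) = x m j * ((a : L) * x m i)
    ring

end Pool.Agent.Results.MP_f82ddf_nt.LowGenusLang
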