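import Pool.Agent.Q1.SL.Off
import Pool.Agent.Y377.IR.Num

set_option autoImplicit false

/-!
# Uniform bounds for the points given by iterated recurrences outside of `Z`

Let `X` and `Z` be the projective varieties over a number field `K`, embedded in `ℂ` by `σ`, given by
the forms in the ideals `I` and `I'` of `K[x_0, ..., x_N]` (for `I' = ⊤` the variety `Z` is empty).

We consider families of points `x(h)` of `X(L)`, where `L ⊇ K` is any field which can be embedded
in `ℂ` and `h` runs through an arbitrary group `H`, with homogeneous coordinates given by iterated
recurrences (`IterVec s r e x`): there are invertible matrices `X_1(h), ..., X_s(h)` of size `r` such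
that, for all `g` in `H`, the entries of `X_l(g h) X_l(h)⁻¹` are, for all `h`, the values of
polynomials (depending on `g`) of degree at most `e` in each variable at the entries of `X_i(h)`,
`X_i(h)⁻¹`, `i < l`, and the coordinates of `x(h)` are values of such polynomials at the entries of
all these matrices.

The following are equivalent:

* (`NoRat`) there is no nonconstant map from the projective line over `ℂ` to `X` with image not
  contained in `Z`;
* (`UniformOut`) for all `s`, `r`, `e` there is ONE number `B` such that for ALL fields `L ⊇ K`
  embeddable in `ℂ`, all groups `H` and all families of this kind of points of `X(L)`, at most `B`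
  of the points of the family are outside of `Z`.

Both sides of Lang's conjecture, for `Z` instead of the empty set, imply these conditions.
-/

namespace Pool.Agent.Results.MP_f82ddf_nt.UniformOutsideZ

open MvPolynomial Pool.Agent.Y719.SU Pool.Agent.Y377.AO Pool.Agent.Q1.SL

theorem result {K : Type} [Field K] [NumberField K] (σ : K →+* ℂ) {N : ℕ}
    (I I' : Ideal (MvPolynomial (Fin (N + 1)) K)) :
    (NoRat σ I I' ↔ UniformOut I I') ∧ (Hyperbolic σ I I' → UniformOut I I') ∧
      (Finiteness I I' → UniformOut I I') := by
  obtain ⟨hm, hhyp, hfin⟩ := main σ I I'
  have e2 : NoRat σ I I' ↔ NoRatNF I I' := hm.out 0 2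
  have e3 : NoRat σ I I' ↔ HtBound I I' := hm.out 0 3
  have h13 : NoRat σ I I' ↔ UniformOut I I' := e2.trans noRatNF_iff_uniformOut
  exact ⟨h13, fun h => h13.1 (e3.2 (hhyp h)), fun h => h13.1 (e3.2 (hfin h))⟩

end Pool.Agent.Results.MP_f82ddf_nt.UniformOutsideZ
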