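import Pool.Agent.Q171.RC.Lang

/-!
# Zariski-open sets of parameters containing all members of a family on one of the two sides of
# Lang's conjecture

Let `K` be a number field, embedded in `ℂ`, and let `X_t`, for `t = (t_1, ..., t_m)`, be an algebraic
family of projective varieties over `K`: `X_t` is given by forms in `n + 1` variables of degree at
most `D` whose coefficients are polynomials in `t` over `K`.

For all `s`, `r`, `e` there is a Zariski-OPEN set `U` of parameters, given by polynomials over `K`,
such that

(1) `U` contains all `t` with coordinates in `ℂ` for which `X_t` is hyperbolic;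

(2) `U` contains all `t` with coordinates in finite extensions `L` of `K` for which `X_t(M)` is finite
for all finite extensions `M` of `L`;

(3) if `t`, with coordinates in `ℂ`, is in `U`, then all curves `f : Ω → X_t(ℂ)`, on all domains `Ω` of
the plane, given by `s` iterated linear differential equations with matrices of size `r` and
polynomials of degree at most `e` (`DVec Ω s r e f`) are constant, and all families of points of
`X_t(ℂ)`, over all groups, given by `s` iterated recurrences with such matrices and polynomials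
(`IterVec s r e x`) consist of at most `B` points, where `B` depends only on `n`, `D`, `s`, `r`, `e`.

By Lang's conjecture the parameters in (1) and (2) should be the same (for algebraic `t`), and by the
theorem both conditions at one parameter imply the restricted forms of both conditions at all
parameters outside of a proper Zariski-closed subset (of each component which contains it).
-/

set_option autoImplicit false

namespace Pool.Agent.Results.MP_f82ddf_nt.ZariskiOpenLang

open MvPolynomial Pool.Agent.Q1.SL Pool.Agent.Y377.ST Pool.Agent.Q171.RC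
open scoped LinearAlgebra.Projectivization

/-- The projective variety `X = {F = 0, F ∈ S}` is (Brody, hence Kobayashi) hyperbolic. -/
def Hyperbolic {N : ℕ} (S : Set (MvPolynomial (Fin N) ℂ)) : Prop :=
  ∀ g : ℂ → (Fin N → ℂ), Differentiable ℂ g → (∀ z, g z ≠ 0) →
    (∀ z, ∀ F ∈ S, eval (g z) F = 0) → ∀ z, ∃ c : ℂ, g z = c • g 0

/-- The projective variety of `S`, over the field `L`, has only finitely many points with
coordinates in `M`, for all finite extensions `M` of `L`. -/
def FinitelyManyPoints {N : ℕ} {L : Type} [Field L] (S : Set (MvPolynomial (Fin N) L)) : Prop :=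
  ∀ (M : Type) [Field M] [NumberField M] [Algebra L M],
    {P : ℙ M (Fin N → M) | ∀ F ∈ S, aeval P.rep F = 0}.Finite

/-- the equations of the member `X_t` of the family, for `t` with coordinates in `L` -/
def member {N m : ℕ} {K L : Type} [Field K] [Field L] [Algebra K L]
    (S : Set (MvPolynomial (Fin N) (MvPolynomial (Fin m) K))) (t : Fin m → L) :
    Set (MvPolynomial (Fin N) L) := map (aeval t : MvPolynomial (Fin m) K →ₐ[K] L).toRingHom '' S

/-- All curves in the projective variety of `S`, on all domains `Ω` of the plane, given by `s`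
iterated linear differential equations with matrices of size `r` and polynomials of degree at most
`e`, are constant. -/
def CurvesConstant {N : ℕ} (S : Set (MvPolynomial (Fin N) ℂ)) (s r e : ℕ) : Prop :=
  ∀ Ω : Set ℂ, IsOpen Ω → IsPreconnected Ω → ∀ f : ℂ → Fin N → ℂ, DVec Ω s r e f →
    (∀ z ∈ Ω, ∀ F ∈ S, eval (f z) F = 0) →
    ∀ z ∈ Ω, ∀ w ∈ Ω, ∀ i j, f z i * f w j = f z j * f w i

/-- All families of points of the projective variety of `S`, over groups `H`, given by `s` iterated
recurrences with matrices of size `r` and polynomials of degree at most `e`, consist of at most `B`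
points. -/
def PointBound {n : ℕ} (S : Set (MvPolynomial (Fin (n + 1)) ℂ)) (s r e B : ℕ) : Prop :=
  ∀ (H : Type) [Group H] (x : H → Fin (n + 1) → ℂ), IterVec s r e x →
    (∀ h, ∀ F ∈ S, eval (x h) F = 0) →
    {P | ∃ (h : H) (h0 : x h ≠ 0), P = Projectivization.mk ℂ (x h) h0}.encard ≤ (B : ℕ∞)

theorem result (n D s r e : ℕ) : ∃ B : ℕ,
    ∀ (K : Type) [Field K] [NumberField K] [Algebra K ℂ] (m : ℕ)
      (S : Set (MvPolynomial (Fin (n + 1)) (MvPolynomial (Fin m) K))),
      (∀ F ∈ S, ∃ e, e ≤ D ∧ F.IsHomogeneous e) →
      ∃ Ps : Set (MvPolynomial (Fin m) K),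
        (∀ t : Fin m → ℂ, Hyperbolic (member S t) → ∃ Ψ ∈ Ps, aeval t Ψ ≠ 0) ∧
        (∀ (L : Type) [Field L] [NumberField L] [Algebra K L] (t : Fin m → L),
          FinitelyManyPoints (member S t) → ∃ Ψ ∈ Ps, aeval t Ψ ≠ 0) ∧
        ∀ t : Fin m → ℂ, (∃ Ψ ∈ Ps, aeval t Ψ ≠ 0) →
          CurvesConstant (member S t) s r e ∧ PointBound (member S t) s r e B := by
  classical
  obtain ⟨δ, B, hfam⟩ := family (n := n) (D := D) s r e
  refine ⟨B, fun K _ _ _ m S hS => ?_⟩
  obtain ⟨Ps, h1, h2⟩ := hfam S hS
  refine ⟨Ps, fun t ht => (h1 t).2 (noRat_of_brody ?_ ht δ), ?_, fun t ht => h2 t ht⟩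
  · rintro _ ⟨F, hF, rfl⟩
    obtain ⟨e, -, he⟩ := hS F hF
    exact ⟨e, he.map _⟩
  · intro L _ _ _ t ht
    have halg : Algebra.IsAlgebraic K L := Algebra.IsAlgebraic.tower_top (K := ℚ) K
    let τ : L →ₐ[K] ℂ := IsAlgClosed.lift
    have hτ : ∀ Ψ : MvPolynomial (Fin m) K, aeval (fun j => τ (t j)) Ψ = τ (aeval t Ψ) := by
      intro Ψ
      have h3 : (aeval (fun j => τ (t j)) : MvPolynomial (Fin m) K →ₐ[K] ℂ) =
          τ.comp (aeval t) := by
        ext j
        simp
      rw [h3]
      rfl
    have h3 := noRat_of_finPts (τ : L →+* ℂ) (S := member S t) (by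
      rintro _ ⟨F, hF, rfl⟩
      obtain ⟨e, -, he⟩ := hS F hF
      exact ⟨e, he.map _⟩) ht δ
    have h4 : map (τ : L →+* ℂ) '' member S t = fibre S (fun j => τ (t j)) := by
      unfold member fibre
      rw [Set.image_image]
      refine Set.image_congr fun F _ => ?_
      have h5 : (τ : L →+* ℂ).comp (aeval t : MvPolynomial (Fin m) K →ₐ[K] L).toRingHom =
          (aeval fun j => τ (t j) : MvPolynomial (Fin m) K →ₐ[K] ℂ).toRingHom :=
        RingHom.ext fun Ψ => (hτ Ψ).symm
      rw [map_map, h5]
    rw [h4] at h3
    obtain ⟨Ψ, hΨ, hΨ'⟩ := (h1 _).2 h3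
    refine ⟨Ψ, hΨ, fun h0 => hΨ' ?_⟩
    rw [hτ, h0, map_zero]

end Pool.Agent.Results.MP_f82ddf_nt.ZariskiOpenLang
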